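import Mathlib
import Pool.Agent.Lib.MP_ac1dd9_nt.OddExp

/-!
For every `n ≥ 2`, `n ≠ 6`, the number `2 ^ n - 1` has a primitive prime divisor which occurs in it
to an odd power.
-/

theorem Pool.Agent.Results.MP_ac1dd9_nt.OddExponent.result (n : ℕ) (hn : 2 ≤ n) (h6 : n ≠ 6) :
    ∃ p : ℕ, p.Prime ∧ p ∣ 2 ^ n - 1 ∧ (∀ m : ℕ, 1 ≤ m → m < n → ¬ p ∣ 2 ^ m - 1) ∧
      Odd (padicValNat p (2 ^ n - 1)) ∧ Odd (padicValNat p (2 ^ (p - 1) - 1)) :=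
  Pool.Agent.Lib.MP_ac1dd9_nt.OddExp.oddExponent n hn h6
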